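import Pool.Agent.Helper84_LatinLog.Main

set_option autoImplicit false

/-!
The gadget on the three rows `i - K, i, i + K` of the cyclic square of order `n`. The columns are
coloured with the colours `0, 1, 2` such that `c` and `c + K` have different colours; the three rows
are permuted in the column `c` according to the colours of `c` and `c + K`.
-/

namespace Pool.Agent.Helper63.LatinLinear

open Finset Pool.Agent.Helper84.LatinLog

/-- The label permutation in a column of colour `a` when the column `K` steps further has the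
colour `b`. -/
def lab (a b : Fin 3) : Equiv.Perm (Fin 3) :=
  if a = 0 then (if b = 1 then Equiv.swap 0 2 else cyc)
  else if a = 1 then (if b = 0 then 1 else Equiv.swap 1 2)
  else (if b = 1 then cyc' else Equiv.swap 0 1)

theorem lab01 : ∀ x y z : Fin 3, x ≠ y → y ≠ z → ∀ u, lab x y u = 1 → lab y z u ≠ 0 := by
  decide

theorem lab12 : ∀ x y z : Fin 3, x ≠ y → y ≠ z → ∀ u, lab x y u = 2 → lab y z u ≠ 1 := by
  decide

theorem lab02 : ∀ x y z w : Fin 3, x ≠ y → y ≠ z → z ≠ w → ∀ u, lab x y u = 2 →
    lab z w u ≠ 0 := by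
  decide

/-- Row injectivity of the gadget, for every proper colouring. -/
theorem gad_inj {n : ℕ} (K : ZMod n) (s : ZMod n → Fin 3) (hs : ∀ c, s c ≠ s (c + K))
    (u : Fin 3) :
    Function.Injective (fun c => K * ((lab (s c) (s (c + K)) u : ℕ) : ZMod n) + c) := by
  have k01 : ∀ a b : ZMod n, a = b + K → lab (s b) (s (b + K)) u = 1 →
      lab (s a) (s (a + K)) u = 0 → False := by
    intro a b hab h1 h0
    subst hab
    exact lab01 _ _ _ (hs b) (hs (b + K)) u h1 h0
  have k12 : ∀ a b : ZMod n, a = b + K → lab (s b) (s (b + K)) u = 2 →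
      lab (s a) (s (a + K)) u = 1 → False := by
    intro a b hab h1 h0
    subst hab
    exact lab12 _ _ _ (hs b) (hs (b + K)) u h1 h0
  have k02 : ∀ a b : ZMod n, a = b + K + K → lab (s b) (s (b + K)) u = 2 →
      lab (s a) (s (a + K)) u = 0 → False := by
    intro a b hab h1 h0
    subst hab
    exact lab02 _ _ _ _ (hs b) (hs (b + K)) (hs (b + K + K)) u h1 h0
  intro a b hab
  have h : K * ((lab (s a) (s (a + K)) u : ℕ) : ZMod n) + a
      = K * ((lab (s b) (s (b + K)) u : ℕ) : ZMod n) + b := hab
  have c0 : ((((0 : Fin 3) : ℕ)) : ZMod n) = 0 := by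
    rw [show ((0 : Fin 3) : ℕ) = 0 from rfl, Nat.cast_zero]
  have c1 : ((((1 : Fin 3) : ℕ)) : ZMod n) = 1 := by
    rw [show ((1 : Fin 3) : ℕ) = 1 from rfl, Nat.cast_one]
  have c2 : ((((2 : Fin 3) : ℕ)) : ZMod n) = 1 + 1 := by
    rw [show ((2 : Fin 3) : ℕ) = 1 + 1 from rfl, Nat.cast_add, Nat.cast_one]
  have three : ∀ x : Fin 3, x = 0 ∨ x = 1 ∨ x = 2 := by decide
  rcases three (lab (s a) (s (a + K)) u) with ha | ha | ha <;>
  rcases three (lab (s b) (s (b + K)) u) with hb | hb | hb
  · rw [ha, hb] at h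
    exact add_left_cancel h
  · exfalso
    rw [ha, hb, c0, c1] at h
    exact k01 a b (by linear_combination h) hb ha
  · exfalso
    rw [ha, hb, c0, c2] at h
    exact k02 a b (by linear_combination h) hb ha
  · exfalso
    rw [ha, hb, c0, c1] at h
    exact k01 b a (by linear_combination -h) ha hb
  · rw [ha, hb] at h
    exact add_left_cancel h
  · exfalso
    rw [ha, hb, c1, c2] at h
    exact k12 a b (by linear_combination h) hb ha
  · exfalso
    rw [ha, hb, c0, c2] at h
    exact k02 b a (by linear_combination -h) ha hb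
  · exfalso
    rw [ha, hb, c1, c2] at h
    exact k12 b a (by linear_combination -h) ha hb
  · rw [ha, hb] at h
    exact add_left_cancel h

/-- The colour of the column number `v` for the class `i`. -/
def col (n K i v : ℕ) : Fin 3 :=
  if v < K then (if K ≤ v + i then 2 else 0)
  else if v + 2 * K < n then (if v / K % 2 = 1 then 1 else 0)
  else if v + K < n then 2 else 1

theorem col1 {n K i v : ℕ} (h1 : v < K) : col n K i v = if K ≤ v + i then 2 else 0 := by
  unfold col
  rw [if_pos h1]

theorem col2 {n K i v : ℕ} (h1 : ¬ v < K) (h2 : v + 2 * K < n) :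
    col n K i v = if v / K % 2 = 1 then 1 else 0 := by
  unfold col
  rw [if_neg h1, if_pos h2]

theorem col3 {n K i v : ℕ} (h1 : ¬ v < K) (h2 : ¬ v + 2 * K < n) (h3 : v + K < n) :
    col n K i v = 2 := by
  unfold col
  rw [if_neg h1, if_neg h2, if_pos h3]

theorem col4 {n K i v : ℕ} (h1 : ¬ v < K) (h3 : ¬ v + K < n) : col n K i v = 1 := by
  unfold col
  rw [if_neg h1, if_neg (by omega), if_neg h3]

theorem col_ne {n K i v : ℕ} (hK : 0 < K) (hn : 4 * K ≤ n) (hv : v < n) :
    col n K i v ≠ col n K i (if v + K < n then v + K else v + K - n) := by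
  have hd : (v + K) / K = v / K + 1 := Nat.add_div_right v hK
  by_cases h1 : v < K
  · have h0 : v / K = 0 := Nat.div_eq_of_lt h1
    have e : (if v + K < n then v + K else v + K - n) = v + K := if_pos (by omega)
    have f : (v / K + 1) % 2 = 1 := by rw [h0]
    rw [e, col1 h1, col2 (by omega) (by omega), hd, if_pos f]
    split_ifs <;> decide
  · by_cases h2 : v + 2 * K < n
    · have e : (if v + K < n then v + K else v + K - n) = v + K := if_pos (by omega)
      rw [e, col2 h1 h2]
      by_cases h3 : v + K + 2 * K < n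
      · rw [col2 (by omega) h3, hd]
        rcases Nat.mod_two_eq_zero_or_one (v / K) with h | h
        · have f1 : ¬ v / K % 2 = 1 := by omega
          have f2 : (v / K + 1) % 2 = 1 := by omega
          rw [if_neg f1, if_pos f2]; decide
        · have f2 : ¬ (v / K + 1) % 2 = 1 := by omega
          rw [if_pos h, if_neg f2]; decide
      · rw [col3 (by omega) h3 (by omega)]
        split_ifs <;> decide
    · by_cases h3 : v + K < n
      · have e : (if v + K < n then v + K else v + K - n) = v + K := if_pos (by omega)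
        rw [e, col3 h1 h2 h3, col4 (by omega) (by omega)]
        decide
      · have e : (if v + K < n then v + K else v + K - n) = v + K - n := if_neg h3
        rw [e, col4 h1 h3, col1 (by omega)]
        split_ifs <;> decide

/-- The colour of the column `c` for the class `i`. -/
def st (n K i : ℕ) (c : ZMod n) : Fin 3 := col n K i c.val

theorem st_ne {n K : ℕ} [NeZero n] (hK : 0 < K) (hn : 4 * K ≤ n) (i : ℕ) (c : ZMod n) :
    st n K i c ≠ st n K i (c + (K : ZMod n)) := by
  unfold st
  have hc := ZMod.val_lt c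
  have h : (c + (K : ZMod n)).val = if c.val + K < n then c.val + K else c.val + K - n := by
    rw [ZMod.val_add, ZMod.val_natCast, Nat.mod_eq_of_lt (show K < n by omega)]
    split_ifs with h
    · exact Nat.mod_eq_of_lt h
    · rw [Nat.mod_eq_sub_mod (by omega)]
      exact Nat.mod_eq_of_lt (by omega)
  rw [h]
  exact col_ne hK hn hc

/-- The rows of the gadgets, as natural numbers. -/
def keyN (n K i u : ℕ) : ℕ := i + 1 + K * u + (n - K)

/-- The rows of the gadgets: `key (i, u) = (i + 1) + K (u - 1)`. -/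
def key (n K : ℕ) (p : Fin (K - 1) × Fin 3) : ZMod n := ((keyN n K p.1 p.2 : ℕ) : ZMod n)

theorem keyN_window {n K j v : ℕ} (hn : 4 * K ≤ n) (hj : j < K - 1) (hv : v < 3) :
    n - K ≤ keyN n K j v ∧ keyN n K j v < (n - K) + n := by
  unfold keyN
  have : v = 0 ∨ v = 1 ∨ v = 2 := by omega
  rcases this with rfl | rfl | rfl <;> omega

theorem key_inj {n K : ℕ} (hn : 4 * K ≤ n) : Function.Injective (key n K) := by
  rintro ⟨i, u⟩ ⟨i', u'⟩ h
  have hi := i.isLt
  have hi' := i'.isLt
  have hu := u.isLt
  have hu' := u'.isLt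
  have h1 : keyN n K i u = keyN n K i' u' :=
    cast_inj_of_window (keyN_window hn hi hu).1 (keyN_window hn hi hu).2
      (keyN_window hn hi' hu').1 (keyN_window hn hi' hu').2 h
  unfold keyN at h1
  have h2 : (i : ℕ) = i' ∧ (u : ℕ) = u' := by
    have a : (u : ℕ) = 0 ∨ (u : ℕ) = 1 ∨ (u : ℕ) = 2 := by omega
    have b : (u' : ℕ) = 0 ∨ (u' : ℕ) = 1 ∨ (u' : ℕ) = 2 := by omega
    rcases a with a | a | a <;> rcases b with b | b | b <;> rw [a, b] at h1 ⊢ <;> omega
  rw [Fin.ext h2.1, Fin.ext h2.2]

theorem key_eq {n K : ℕ} (i : Fin (K - 1)) (u : Fin 3) :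
    key n K (i, u) = (((i : ℕ) + 1 + (n - K) : ℕ) : ZMod n) + (K : ZMod n) * ((u : ℕ) : ZMod n) := by
  unfold key keyN
  push_cast
  ring

/-- The label permutation on the gadget rows in the column `c`. -/
def inner (n K : ℕ) (c : ZMod n) : Equiv.Perm (Fin (K - 1) × Fin 3) :=
  Equiv.prodCongrRight (fun i : Fin (K - 1) =>
    lab (st n K (i + 1) c) (st n K (i + 1) (c + (K : ZMod n))))

section

variable {n K : ℕ} [NeZero n]

/-- The permutation of the rows in the column `c`. -/
noncomputable def theta (hn : 4 * K ≤ n) (c : ZMod n) : Equiv.Perm (ZMod n) :=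
  (inner n K c).viaFintypeEmbedding ⟨key n K, key_inj hn⟩

theorem theta_key (hn : 4 * K ≤ n) (c : ZMod n) (i : Fin (K - 1)) (u : Fin 3) :
    theta hn c (key n K (i, u))
      = key n K (i, lab (st n K (i + 1) c) (st n K (i + 1) (c + (K : ZMod n))) u) :=
  Equiv.Perm.viaFintypeEmbedding_apply_image (inner n K c) ⟨key n K, key_inj hn⟩ (i, u)

theorem theta_other (hn : 4 * K ≤ n) (c : ZMod n) {r : ZMod n}
    (hr : r ∉ Set.range (key n K)) : theta hn c r = r :=
  Equiv.Perm.viaFintypeEmbedding_apply_notMem_range (inner n K c) ⟨key n K, key_inj hn⟩ hr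

theorem row_injective (hK : 0 < K) (hn : 4 * K ≤ n) (r : ZMod n) :
    Function.Injective (fun c => theta hn c r + c) := by
  intro a b hab
  by_cases hr : r ∈ Set.range (key n K)
  · obtain ⟨⟨i, u⟩, rfl⟩ := hr
    have h1 : theta hn a (key n K (i, u)) + a = theta hn b (key n K (i, u)) + b := hab
    rw [theta_key, theta_key, key_eq, key_eq, add_assoc _ _ a, add_assoc _ _ b] at h1
    exact gad_inj (K : ZMod n) (st n K (i + 1)) (st_ne hK hn (i + 1)) u (add_left_cancel h1)
  · have h1 : theta hn a r + a = theta hn b r + b := hab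
    rw [theta_other hn a hr, theta_other hn b hr] at h1
    exact add_left_cancel h1

theorem zero_notMem (hK : 0 < K) (hn : 4 * K ≤ n) : (0 : ZMod n) ∉ Set.range (key n K) := by
  rintro ⟨⟨i, u⟩, h⟩
  have hi := i.isLt
  have hu := u.isLt
  have h1 : keyN n K i u = n := by
    apply cast_inj_of_window (keyN_window hn hi hu).1 (keyN_window hn hi hu).2
      (show n - K ≤ n by omega) (show n < (n - K) + n by omega)
    rw [ZMod.natCast_self]
    exact h
  unfold keyN at h1
  have a : (u : ℕ) = 0 ∨ (u : ℕ) = 1 ∨ (u : ℕ) = 2 := by omega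
  rcases a with a | a | a <;> rw [a] at h1 <;> omega

/-- The subsquare on the rows and columns `0, ..., K - 1`. -/
theorem sub_sym (hK : 0 < K) (hn : 4 * K ≤ n) {r c : ℕ} (hr : r < K) (hc : c < K) :
    theta hn (c : ZMod n) (r : ZMod n) + (c : ZMod n) = (((r + c) % K : ℕ) : ZMod n) := by
  by_cases h0 : r = 0
  · subst h0
    rw [Nat.cast_zero, theta_other hn _ (zero_notMem hK hn), zero_add, zero_add,
      Nat.mod_eq_of_lt hc]
  · have hcn : c < n := by omega
    have e1 : ((c : ZMod n)).val = c := by
      rw [ZMod.val_natCast, Nat.mod_eq_of_lt hcn]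
    have e2 : ((c : ZMod n) + (K : ZMod n)).val = c + K := by
      rw [← Nat.cast_add, ZMod.val_natCast, Nat.mod_eq_of_lt (by omega)]
    have e3 : (r : ZMod n) = key n K (⟨r - 1, by omega⟩, 1) := by
      unfold key keyN
      have : r - 1 + 1 + K * ((1 : Fin 3) : ℕ) + (n - K) = r + n := by
        rw [show ((1 : Fin 3) : ℕ) = 1 from rfl]; omega
      show (r : ZMod n) = ((r - 1 + 1 + K * ((1 : Fin 3) : ℕ) + (n - K) : ℕ) : ZMod n)
      rw [this, Nat.cast_add, ZMod.natCast_self, add_zero]
    have s1 : st n K (((⟨r - 1, by omega⟩ : Fin (K - 1)) : ℕ) + 1) (c : ZMod n)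
        = if K ≤ c + r then 2 else 0 := by
      unfold st
      rw [e1]
      have : ((⟨r - 1, by omega⟩ : Fin (K - 1)) : ℕ) + 1 = r := by
        show r - 1 + 1 = r
        omega
      rw [this]
      unfold col
      rw [if_pos hc]
    have s2 : st n K (((⟨r - 1, by omega⟩ : Fin (K - 1)) : ℕ) + 1) ((c : ZMod n) + (K : ZMod n))
        = 1 := by
      unfold st
      rw [e2]
      unfold col
      have hd : (c + K) / K = c / K + 1 := Nat.add_div_right c hK
      rw [if_neg (by omega), if_pos (by omega), hd, Nat.div_eq_of_lt hc, if_pos (by norm_num)]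
    rw [e3, theta_key, s1, s2]
    by_cases h : K ≤ c + r
    · rw [if_pos h, show lab 2 1 1 = 0 from by decide]
      have h2 : (r + c) % K = r + c - K := by
        rw [Nat.mod_eq_sub_mod (by omega)]
        exact Nat.mod_eq_of_lt (by omega)
      rw [h2]
      unfold key keyN
      show ((r - 1 + 1 + K * ((0 : Fin 3) : ℕ) + (n - K) : ℕ) : ZMod n) + (c : ZMod n)
        = ((r + c - K : ℕ) : ZMod n)
      rw [← Nat.cast_add]
      have h3 : r - 1 + 1 + K * ((0 : Fin 3) : ℕ) + (n - K) + c = (r + c - K) + n := by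
        rw [show ((0 : Fin 3) : ℕ) = 0 from rfl]; omega
      rw [h3, Nat.cast_add, ZMod.natCast_self, add_zero]
    · rw [if_neg h, show lab 0 1 1 = 1 from by decide, ← e3, ← Nat.cast_add,
        Nat.mod_eq_of_lt (by omega)]

end

end Pool.Agent.Helper63.LatinLinear
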