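import Pool.Agent.Helper63_LS.Main

set_option autoImplicit false

/-!
The bound `K²` for the largest admissible even `K`.
-/

namespace Pool.Agent.Helper63.LatinLinear

/-- The largest admissible even `K`. -/
theorem choose_K (n : ℕ) (hn : 9 ≤ n) :
    ∃ K : ℕ, Even K ∧ 2 ≤ K ∧ 3 * K * K < n + 2 * K ∧ n ≤ 3 * K * K + 10 * K + 8 := by
  classical
  have hex : ∃ k : ℕ, n + 4 * k ≤ 12 * k * k := by
    refine ⟨n, ?_⟩
    nlinarith
  have h1 := Nat.find_spec hex
  have h2 : ∀ j, j < Nat.find hex → ¬ n + 4 * j ≤ 12 * j * j := fun j hj => Nat.find_min hex hj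
  generalize Nat.find hex = k at *
  have hk0 : k ≠ 0 := by
    rintro rfl
    omega
  have hk1 : k ≠ 1 := by
    rintro rfl
    omega
  obtain ⟨j, rfl⟩ : ∃ j, k = j + 1 := ⟨k - 1, by omega⟩
  have h3 := h2 j (by omega)
  refine ⟨2 * j, ⟨j, by ring⟩, by omega, ?_, ?_⟩
  · push Not at h3
    nlinarith
  · nlinarith

/-- The property of having a latin square of order `n` with at least `t` entries in no
transversal. -/
def Has (n t : ℕ) : Prop :=
  ∃ L : Fin n → Fin n → Fin n,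
    (∀ i, Function.Injective (L i)) ∧
    (∀ j, Function.Injective (fun i => L i j)) ∧
    t ≤ ({p : Fin n × Fin n |
            ¬ ∃ σ : Equiv.Perm (Fin n),
                Function.Injective (fun i : Fin n => L i (σ i)) ∧ σ p.1 = p.2}).ncard

theorem main_bound (n : ℕ) (hn : 9 ≤ n) :
    ∃ t : ℕ, Has n t ∧ n ≤ 10 * t ∧ ∃ K : ℕ, 2 ≤ K ∧ 2 * K * K ≤ n ∧ n ≤ 3 * t + 10 * K + 8 := by
  obtain ⟨K, hKe, hK2, hlt, hle⟩ := choose_K n hn
  have h2K : 2 * K * K ≤ n := by nlinarith
  rcases Nat.even_or_odd n with he | ho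
  · refine ⟨n * n, Pool.Agent.TransFree.even_bound n (by omega) he, ?_, K, hK2, h2K, ?_⟩
    · nlinarith
    · nlinarith
  · refine ⟨K * K, odd_bound n K ho hKe hlt, ?_, K, hK2, h2K, ?_⟩
    · nlinarith
    · nlinarith

end Pool.Agent.Helper63.LatinLinear
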