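import Pool.Agent.Helper63_LS.Base

set_option autoImplicit false

/-!
For odd `n` and even `K` with `3 K² < n + 2 K` the subsquare on the rows and columns
`0, ..., K - 1` is replaced by another one; no transversal meets it.
-/

namespace Pool.Agent.Helper63.LatinLinear

open Finset Pool.Agent.Helper84.LatinLog

/-- The cyclic shift of the numbers `0, ..., K - 1`. -/
def tauN (K v : ℕ) : ℕ := if v < K then (if v + 1 < K then v + 1 else 0) else v

theorem tauN_inj (K : ℕ) : Function.Injective (tauN K) := by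
  intro a b h
  unfold tauN at h
  split_ifs at h <;> omega

theorem tauN_lt {K v : ℕ} (h : v < K) : tauN K v < K := by
  unfold tauN
  split_ifs <;> omega

theorem tauN_lt' {n K v : ℕ} (hn : K ≤ n) (h : v < n) : tauN K v < n := by
  unfold tauN
  split_ifs <;> omega

theorem tauN_ge {K v : ℕ} (h : ¬ v < K) : tauN K v = v := by
  unfold tauN
  rw [if_neg h]

section

variable {n : ℕ} [NeZero n]

/-- The cyclic shift of the columns `0, ..., K - 1`. -/
def tau (K : ℕ) (c : ZMod n) : ZMod n := ((tauN K c.val : ℕ) : ZMod n)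

theorem tau_val {K : ℕ} (hn : K ≤ n) (c : ZMod n) : (tau K c).val = tauN K c.val := by
  unfold tau
  rw [ZMod.val_natCast, Nat.mod_eq_of_lt (tauN_lt' hn (ZMod.val_lt c))]

theorem tau_inj {K : ℕ} (hn : K ≤ n) : Function.Injective (tau K : ZMod n → ZMod n) := by
  intro a b h
  apply ZMod.val_injective n
  apply tauN_inj K
  rw [← tau_val hn, ← tau_val hn, h]

theorem tau_ge {K : ℕ} {c : ZMod n} (h : ¬ c.val < K) : tau K c = c := by
  unfold tau
  rw [tauN_ge h, ZMod.natCast_zmod_val]

/-- The column of the auxiliary square used for the cell `(r, c)`. -/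
def gam (K : ℕ) (r c : ZMod n) : ZMod n := if r.val < K then tau K c else c

variable {K : ℕ}

/-- The square. -/
noncomputable def sq (hn : 4 * K ≤ n) (r c : ZMod n) : ZMod n :=
  theta hn (gam K r c) r + gam K r c

theorem sq_row (hK : 0 < K) (hn : 4 * K ≤ n) (r : ZMod n) : Function.Injective (sq hn r) := by
  intro a b hab
  have h : theta hn (gam K r a) r + gam K r a = theta hn (gam K r b) r + gam K r b := hab
  have h1 := row_injective hK hn r h
  unfold gam at h1
  split_ifs at h1
  · exact tau_inj (by omega) h1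
  · exact h1

theorem sub_sym' (hK : 0 < K) (hn : 4 * K ≤ n) {r c : ZMod n} (hr : r.val < K)
    (hc : c.val < K) : theta hn c r + c = (((r.val + c.val) % K : ℕ) : ZMod n) := by
  have h := sub_sym hK hn hr hc
  rw [ZMod.natCast_zmod_val, ZMod.natCast_zmod_val] at h
  exact h

theorem sq_sub (hK : 0 < K) (hn : 4 * K ≤ n) {r c : ZMod n} (hr : r.val < K)
    (hc : c.val < K) : sq hn r c = (((r.val + tauN K c.val) % K : ℕ) : ZMod n) := by
  unfold sq gam
  rw [if_pos hr]
  have h1 : (tau K c).val = tauN K c.val := tau_val (by omega) c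
  have h2 : (tau K c).val < K := by rw [h1]; exact tauN_lt hc
  rw [sub_sym' hK hn hr h2, h1]

theorem sq_col_aux (hK : 0 < K) (hn : 4 * K ≤ n) (c a b : ZMod n) (ha : a.val < K)
    (hb : ¬ b.val < K) (h : sq hn a c = sq hn b c) : False := by
  by_cases hc : c.val < K
  · rw [sq_sub hK hn ha hc] at h
    unfold sq gam at h
    rw [if_neg hb] at h
    have hm : (a.val + tauN K c.val) % K < K := Nat.mod_lt _ hK
    generalize (a.val + tauN K c.val) % K = m at *
    -- the row `a'` of the subsquare carrying `m` in the column `c`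
    obtain ⟨t, ht, hmt⟩ : ∃ t, t < K ∧ (t + c.val) % K = m := by
      by_cases hcm : c.val ≤ m
      · exact ⟨m - c.val, by omega, by
          rw [Nat.sub_add_cancel hcm]; exact Nat.mod_eq_of_lt hm⟩
      · refine ⟨m + K - c.val, by omega, ?_⟩
        have : m + K - c.val + c.val = m + K := by omega
        rw [this, Nat.add_mod_right]
        exact Nat.mod_eq_of_lt hm
    have h2 := sub_sym hK hn ht hc
    rw [ZMod.natCast_zmod_val, hmt, h] at h2
    have h3 : (t : ZMod n) = b := (theta hn c).injective (add_right_cancel h2)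
    apply hb
    rw [← h3, ZMod.val_natCast, Nat.mod_eq_of_lt (by omega)]
    exact ht
  · unfold sq gam at h
    rw [if_pos ha, if_neg hb, tau_ge hc] at h
    have h3 : a = b := (theta hn c).injective (add_right_cancel h)
    rw [h3] at ha
    exact hb ha

theorem sq_col (hK : 0 < K) (hn : 4 * K ≤ n) (c : ZMod n) :
    Function.Injective (fun r => sq hn r c) := by
  intro a b hab
  have h : sq hn a c = sq hn b c := hab
  by_cases ha : a.val < K
  · by_cases hb : b.val < K
    · unfold sq gam at h
      rw [if_pos ha, if_pos hb] at h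
      exact (theta hn _).injective (add_right_cancel h)
    · exact (sq_col_aux hK hn c a b ha hb h).elim
  · by_cases hb : b.val < K
    · exact (sq_col_aux hK hn c b a hb ha h.symm).elim
    · unfold sq gam at h
      rw [if_neg ha, if_neg hb] at h
      exact (theta hn _).injective (add_right_cancel h)

/-- The integer displacement of the column in the row `r`. -/
def tt (K : ℕ) (r c : ZMod n) : ℤ :=
  if r.val < K then ((tauN K c.val : ℕ) : ℤ) - ((c.val : ℕ) : ℤ) else 0

theorem tt_cast (r c : ZMod n) : ((tt K r c : ℤ) : ZMod n) = gam K r c - c := by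
  unfold tt gam tau
  split_ifs
  · push_cast
    rw [ZMod.natCast_zmod_val]
  · push_cast
    rw [sub_self]

/-- The indicator of the subsquare. -/
def ind (K : ℕ) (r c : ZMod n) : ℕ := if r.val < K ∧ c.val < K then 1 else 0

/-- The indicator of the first `K` rows. -/
def low (K : ℕ) (r : ZMod n) : ℕ := if r.val < K then 1 else 0

theorem sum_low (hn : K ≤ n) : ∑ r : ZMod n, low K r = K := by
  unfold low
  rw [Finset.sum_ite, Finset.sum_const_zero, add_zero, Finset.sum_const, smul_eq_mul, mul_one]
  have h : (univ : Finset (ZMod n)).filter (fun r => r.val < K)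
      = (range K).image (fun v : ℕ => (v : ZMod n)) := by
    ext r
    rw [Finset.mem_filter, Finset.mem_image]
    constructor
    · rintro ⟨_, h⟩
      exact ⟨r.val, Finset.mem_range.2 h, ZMod.natCast_zmod_val r⟩
    · rintro ⟨v, hv, rfl⟩
      rw [Finset.mem_range] at hv
      refine ⟨mem_univ _, ?_⟩
      rw [ZMod.val_natCast, Nat.mod_eq_of_lt (by omega)]
      exact hv
  rw [h, Finset.card_image_of_injOn, Finset.card_range]
  intro a ha b hb hab
  rw [Finset.mem_coe, Finset.mem_range] at ha hb
  exact cast_inj_of_window (n := n) (k := 0) (Nat.zero_le _) (by omega) (Nat.zero_le _)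
    (by omega) hab

theorem tt_mod (r c : ZMod n) : (K : ℤ) ∣ tt K r c - ind K r c := by
  unfold tt ind tauN
  by_cases hr : r.val < K
  · by_cases hc : c.val < K
    · by_cases h1 : c.val + 1 < K
      · rw [if_pos hr, if_pos hc, if_pos h1, if_pos ⟨hr, hc⟩]
        refine ⟨0, ?_⟩
        push_cast
        ring
      · rw [if_pos hr, if_pos hc, if_neg h1, if_pos ⟨hr, hc⟩]
        refine ⟨-1, ?_⟩
        have : (K : ℤ) = (c.val : ℤ) + 1 := by omega
        rw [this]
        push_cast
        ring
    · rw [if_pos hr, if_neg hc, if_neg (fun h => hc h.2)]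
      refine ⟨0, ?_⟩
      push_cast
      ring
  · rw [if_neg hr, if_neg (fun h => hr h.1)]
    refine ⟨0, ?_⟩
    push_cast
    ring

theorem tt_le (r c : ZMod n) : tt K r c ≤ low K r := by
  unfold tt low tauN
  split_ifs <;> push_cast <;> omega

theorem W_upper (hn : K ≤ n) (σ : ZMod n → ZMod n) : ∑ r : ZMod n, tt K r (σ r) ≤ K := by
  calc ∑ r : ZMod n, tt K r (σ r) ≤ ∑ r : ZMod n, ((low K r : ℕ) : ℤ) :=
        Finset.sum_le_sum fun r _ => tt_le r (σ r)
    _ = K := by rw [← Nat.cast_sum, sum_low hn]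

theorem W_lower (hn : K ≤ n) (σ : ZMod n → ZMod n) (hσ : Function.Injective σ) :
    -(K : ℤ) ≤ ∑ r : ZMod n, tt K r (σ r) := by
  have bσ : Function.Bijective σ := Finite.injective_iff_bijective.1 hσ
  have bτ : Function.Bijective (tau K : ZMod n → ZMod n) :=
    Finite.injective_iff_bijective.1 (tau_inj hn)
  have h0 : ∑ c : ZMod n, (((tauN K c.val : ℕ) : ℤ) - ((c.val : ℕ) : ℤ)) = 0 := by
    rw [Finset.sum_sub_distrib]
    have : ∑ c : ZMod n, ((tauN K c.val : ℕ) : ℤ) = ∑ c : ZMod n, ((c.val : ℕ) : ℤ) := by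
      rw [← bτ.sum_comp (fun c => ((c.val : ℕ) : ℤ))]
      refine Finset.sum_congr rfl fun c _ => ?_
      rw [tau_val hn]
    rw [this, sub_self]
  have h1 : ∑ r : ZMod n, (((tauN K (σ r).val : ℕ) : ℤ) - (((σ r).val : ℕ) : ℤ)) = 0 := by
    rw [bσ.sum_comp (fun c => (((tauN K c.val : ℕ) : ℤ) - ((c.val : ℕ) : ℤ)))]
    exact h0
  have h2 : ∀ r : ZMod n, (((tauN K (σ r).val : ℕ) : ℤ) - (((σ r).val : ℕ) : ℤ))
      ≤ tt K r (σ r) + ((low K (σ r) : ℕ) : ℤ) := by
    intro r
    unfold tt low tauN
    split_ifs <;> push_cast <;> omega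
  have h3 := Finset.sum_le_sum fun (r : ZMod n) (_ : r ∈ univ) => h2 r
  rw [h1, Finset.sum_add_distrib, bσ.sum_comp (fun c => ((low K c : ℕ) : ℤ)), ← Nat.cast_sum,
    sum_low hn] at h3
  linarith

/-- The integer displacement of the gadget rows. -/
def dev (n K : ℕ) (g : Fin (K - 1) × Fin 3 → ZMod n) (p : Fin (K - 1) × Fin 3) : ℤ :=
  ((lab (st n K (p.1 + 1) (g p)) (st n K (p.1 + 1) (g p + (K : ZMod n))) p.2 : ℕ) : ℤ)
    - ((p.2 : ℕ) : ℤ)

omit [NeZero n] in
theorem dev_sum (hK : 0 < K) (g : Fin (K - 1) × Fin 3 → ZMod n) :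
    |∑ p, dev n K g p| ≤ 3 * ((K : ℤ) - 1) := by
  have h1 : ∀ i : Fin (K - 1), |∑ u : Fin 3, dev n K g (i, u)| ≤ 3 := by
    intro i
    rw [Fin.sum_univ_three]
    unfold dev
    dsimp only
    have h0 := (lab (st n K (i + 1) (g (i, 0))) (st n K (i + 1) (g (i, 0) + (K : ZMod n))) 0).isLt
    have h1 := (lab (st n K (i + 1) (g (i, 1))) (st n K (i + 1) (g (i, 1) + (K : ZMod n))) 1).isLt
    have h2 := (lab (st n K (i + 1) (g (i, 2))) (st n K (i + 1) (g (i, 2) + (K : ZMod n))) 2).isLt
    have e0 : ((0 : Fin 3) : ℕ) = 0 := rfl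
    have e1 : ((1 : Fin 3) : ℕ) = 1 := rfl
    have e2 : ((2 : Fin 3) : ℕ) = 2 := rfl
    rw [e0, e1, e2, abs_le]
    constructor <;> omega
  rw [Fintype.sum_prod_type]
  calc |∑ i : Fin (K - 1), ∑ u : Fin 3, dev n K g (i, u)|
      ≤ ∑ i : Fin (K - 1), |∑ u : Fin 3, dev n K g (i, u)| := Finset.abs_sum_le_sum_abs _ _
    _ ≤ ∑ _i : Fin (K - 1), (3 : ℤ) := Finset.sum_le_sum fun i _ => h1 i
    _ = 3 * ((K : ℤ) - 1) := by
      rw [Finset.sum_const, Finset.card_univ, Fintype.card_fin, nsmul_eq_mul,
        Nat.cast_sub hK]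
      push_cast
      ring

/-- The displacement identity: the total integer displacement vanishes. -/
theorem total_zero (hK : 0 < K) (hn : 4 * K ≤ n) (ho : Odd n) (hlt : 3 * K * K < n + 2 * K)
    (σ : ZMod n → ZMod n) (hσ : Function.Injective σ)
    (hL : Function.Injective (fun r => sq hn r (σ r))) :
    (K : ℤ) ∣ ∑ r : ZMod n, tt K r (σ r) := by
  classical
  have bσ : Function.Bijective σ := Finite.injective_iff_bijective.1 hσ
  have bL : Function.Bijective (fun r => sq hn r (σ r)) := Finite.injective_iff_bijective.1 hL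
  have e1 : ∑ r, σ r = 0 := by
    rw [bσ.sum_comp (fun x => x)]; exact sum_all ho
  have e2 : ∑ r, sq hn r (σ r) = 0 := by
    rw [bL.sum_comp (fun x => x)]; exact sum_all ho
  have e3 : ∑ r : ZMod n, r = 0 := sum_all ho
  have e4 : ∑ r, ((theta hn (gam K r (σ r)) r - r) + (gam K r (σ r) - σ r)) = 0 := by
    have : ∀ r, ((theta hn (gam K r (σ r)) r - r) + (gam K r (σ r) - σ r))
        = sq hn r (σ r) - r - σ r := by
      intro r
      unfold sq
      ring
    rw [Finset.sum_congr rfl fun r _ => this r, Finset.sum_sub_distrib,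
      Finset.sum_sub_distrib, e1, e2, e3, sub_zero, sub_zero]
  rw [Finset.sum_add_distrib] at e4
  have e5 : ∑ p : Fin (K - 1) × Fin 3,
      (theta hn (gam K (key n K p) (σ (key n K p))) (key n K p) - key n K p)
      = ∑ r, (theta hn (gam K r (σ r)) r - r) := by
    apply Finset.sum_of_injOn (key n K) ((key_inj hn).injOn)
    · intro p _
      exact mem_coe.2 (mem_univ _)
    · intro r _ hr
      have hr' : r ∉ Set.range (key n K) := by
        intro h
        apply hr
        obtain ⟨p, hp⟩ := h
        exact ⟨p, mem_coe.2 (mem_univ _), hp⟩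
      rw [theta_other hn _ hr', sub_self]
    · intro p _
      rfl
  have e6 : ∀ p : Fin (K - 1) × Fin 3,
      theta hn (gam K (key n K p) (σ (key n K p))) (key n K p) - key n K p
      = (((K : ℤ) * dev n K (fun p => gam K (key n K p) (σ (key n K p))) p : ℤ) : ZMod n) := by
    rintro ⟨i, u⟩
    unfold dev
    dsimp only
    generalize gam K (key n K (i, u)) (σ (key n K (i, u))) = c
    rw [theta_key, key_eq, key_eq]
    push_cast
    ring
  have e7 : ∑ r, (gam K r (σ r) - σ r) = ((∑ r, tt K r (σ r) : ℤ) : ZMod n) := by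
    rw [Int.cast_sum]
    refine Finset.sum_congr rfl fun r _ => ?_
    rw [tt_cast]
  rw [← e5, Finset.sum_congr rfl fun p _ => e6 p, e7, ← Int.cast_sum, ← Finset.mul_sum,
    ← Int.cast_add, ZMod.intCast_zmod_eq_zero_iff_dvd] at e4
  have hA := dev_sum hK (fun p => gam K (key n K p) (σ (key n K p)))
  have hW1 := W_upper (K := K) (show K ≤ n by omega) σ
  have hW2 := W_lower (K := K) (show K ≤ n by omega) σ hσ
  generalize ∑ p, dev n K (fun p => gam K (key n K p) (σ (key n K p))) p = A at *
  generalize ∑ r, tt K r (σ r) = W at *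
  have hz : (K : ℤ) * A + W = 0 := by
    apply Int.eq_zero_of_abs_lt_dvd e4
    have h1 := abs_le.1 hA
    have hK' : (0 : ℤ) < K := by exact_mod_cast hK
    have h2 : (K : ℤ) * A ≤ K * (3 * (K - 1)) := mul_le_mul_of_nonneg_left h1.2 hK'.le
    have h3 : (K : ℤ) * (-(3 * (K - 1))) ≤ K * A := mul_le_mul_of_nonneg_left h1.1 hK'.le
    have h4 : 3 * (K : ℤ) * K < n + 2 * K := by exact_mod_cast hlt
    rw [abs_lt]
    constructor <;> nlinarith
  exact ⟨-A, by linarith⟩

/-- No transversal meets the subsquare. -/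
theorem free (hK : 0 < K) (hKe : Even K) (hn : 4 * K ≤ n) (ho : Odd n)
    (hlt : 3 * K * K < n + 2 * K)
    (σ : ZMod n → ZMod n) (hσ : Function.Injective σ)
    (hL : Function.Injective (fun r => sq hn r (σ r))) (r : ZMod n) (hr : r.val < K) :
    ¬ (σ r).val < K := by
  have : NeZero K := ⟨hK.ne'⟩
  have hdvd := total_zero hK hn ho hlt σ hσ hL
  have h1 : (K : ℤ) ∣ ((∑ r : ZMod n, ind K r (σ r) : ℕ) : ℤ) := by
    have h2 : (K : ℤ) ∣ ∑ r : ZMod n, (tt K r (σ r) - ind K r (σ r)) :=
      Finset.dvd_sum fun r _ => tt_mod r (σ r)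
    rw [Finset.sum_sub_distrib] at h2
    rw [Nat.cast_sum]
    exact (dvd_sub_right hdvd).1 h2
  have h3 : K ∣ ∑ r : ZMod n, ind K r (σ r) := by exact_mod_cast h1
  have h4 : ∀ r : ZMod n, ind K r (σ r) ≤ low K r := by
    intro r
    unfold ind low
    split_ifs <;> omega
  have h5 : ∑ r : ZMod n, ind K r (σ r) ≤ K := by
    calc ∑ r : ZMod n, ind K r (σ r) ≤ ∑ r : ZMod n, low K r :=
          Finset.sum_le_sum fun r _ => h4 r
      _ = K := sum_low (by omega)
  intro hc
  rcases Nat.eq_zero_or_pos (∑ r : ZMod n, ind K r (σ r)) with h0 | hpos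
  · rw [Finset.sum_eq_zero_iff] at h0
    have := h0 r (mem_univ r)
    unfold ind at this
    rw [if_pos ⟨hr, hc⟩] at this
    omega
  · have h6 : ∑ r : ZMod n, ind K r (σ r) = K := le_antisymm h5 (Nat.le_of_dvd hpos h3)
    have h7 : ∀ r : ZMod n, ind K r (σ r) = low K r := by
      have h8 : ∑ r : ZMod n, ind K r (σ r) = ∑ r : ZMod n, low K r := by
        rw [h6, sum_low (by omega)]
      intro r
      exact (Finset.sum_eq_sum_iff_of_le (fun r _ => h4 r)).1 h8 r (mem_univ r)
    have h9 : ∀ r : ZMod n, r.val < K → (σ r).val < K := by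
      intro r hr
      have := h7 r
      unfold ind low at this
      by_contra hcon
      rw [if_pos hr, if_neg (fun h => hcon h.2)] at this
      omega
    -- the subsquare would have a transversal
    have hval : ∀ x : ZMod K, ((x.val : ℕ) : ZMod n).val = x.val := by
      intro x
      have := ZMod.val_lt x
      rw [ZMod.val_natCast, Nat.mod_eq_of_lt (by omega)]
    have hlt' : ∀ x : ZMod K, (σ ((x.val : ℕ) : ZMod n)).val < K := by
      intro x
      apply h9
      rw [hval]
      exact ZMod.val_lt x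
    have hxinj : ∀ x y : ZMod K, ((x.val : ℕ) : ZMod n) = ((y.val : ℕ) : ZMod n) → x = y := by
      intro x y h
      apply ZMod.val_injective K
      rw [← hval x, ← hval y, h]
    let ρ : ZMod K → ZMod K := fun x => ((tauN K (σ ((x.val : ℕ) : ZMod n)).val : ℕ) : ZMod K)
    have hρ : Function.Injective ρ := by
      intro x y h
      have h' : ((tauN K (σ ((x.val : ℕ) : ZMod n)).val : ℕ) : ZMod K)
          = ((tauN K (σ ((y.val : ℕ) : ZMod n)).val : ℕ) : ZMod K) := h
      have h2 := cast_inj_of_window (n := K) (k := 0) (Nat.zero_le _)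
        (by rw [zero_add]; exact tauN_lt (hlt' x)) (Nat.zero_le _)
        (by rw [zero_add]; exact tauN_lt (hlt' y)) h'
      exact hxinj x y (hσ (ZMod.val_injective n (tauN_inj K h2)))
    have hρ2 : Function.Injective (fun x => x + ρ x) := by
      intro x y h
      have h' : x + ρ x = y + ρ y := h
      have key : ∀ x : ZMod K, sq hn ((x.val : ℕ) : ZMod n) (σ ((x.val : ℕ) : ZMod n))
          = (((x + ρ x).val : ℕ) : ZMod n) := by
        intro x
        rw [sq_sub hK hn (by rw [hval]; exact ZMod.val_lt x) (hlt' x), hval, ZMod.val_add]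
        show _ = (((x.val + ((tauN K (σ ((x.val : ℕ) : ZMod n)).val : ℕ) : ZMod K).val) % K : ℕ)
          : ZMod n)
        rw [ZMod.val_natCast, Nat.add_mod_mod]
      apply hxinj
      apply hL
      show sq hn ((x.val : ℕ) : ZMod n) (σ ((x.val : ℕ) : ZMod n))
        = sq hn ((y.val : ℕ) : ZMod n) (σ ((y.val : ℕ) : ZMod n))
      rw [key, key, h']
    have bρ : Function.Bijective ρ := Finite.injective_iff_bijective.1 hρ
    have bρ2 : Function.Bijective (fun x => x + ρ x) := Finite.injective_iff_bijective.1 hρ2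
    have s1 : ∑ x, ρ x = ∑ g : ZMod K, g := bρ.sum_comp (fun g => g)
    have s2 : ∑ x, (x + ρ x) = ∑ g : ZMod K, g := bρ2.sum_comp (fun g => g)
    rw [Finset.sum_add_distrib, s1] at s2
    exact Pool.Agent.TransFree.sum_zmod_even hKe (add_eq_right.1 s2)

end

/-- For odd `n` and even `K` with `3 K² < n + 2 K` some latin square of order `n` has at least
`K²` entries lying in no transversal. -/
theorem odd_bound (n K : ℕ) (ho : Odd n) (hKe : Even K) (hlt : 3 * K * K < n + 2 * K) :
    ∃ L : Fin n → Fin n → Fin n,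
      (∀ i, Function.Injective (L i)) ∧
      (∀ j, Function.Injective (fun i => L i j)) ∧
      K * K ≤ ({p : Fin n × Fin n |
              ¬ ∃ σ : Equiv.Perm (Fin n),
                  Function.Injective (fun i : Fin n => L i (σ i)) ∧ σ p.1 = p.2}).ncard := by
  classical
  have : NeZero n := ⟨by rintro rfl; simp at ho⟩
  have hn0 : 0 < n := Nat.pos_of_ne_zero (NeZero.ne n)
  have hn4 : 4 * K ≤ n := by
    obtain ⟨k, hk⟩ := hKe
    rcases Nat.eq_zero_or_pos k with h0 | h0
    · omega
    · have : 2 ≤ K := by omega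
      nlinarith
  let S : Finset (ZMod n × ZMod n) :=
    ((range K) ×ˢ (range K)).image (fun p : ℕ × ℕ => ((p.1 : ZMod n), (p.2 : ZMod n)))
  have hS : K * K = S.card := by
    show K * K = (((range K) ×ˢ (range K)).image
      (fun p : ℕ × ℕ => ((p.1 : ZMod n), (p.2 : ZMod n)))).card
    rw [Finset.card_image_of_injOn, Finset.card_product, Finset.card_range]
    rintro ⟨a, b⟩ hab ⟨a', b'⟩ hab' h
    rw [Finset.mem_coe, Finset.mem_product, Finset.mem_range, Finset.mem_range] at hab hab'
    have h1 : (a : ZMod n) = (a' : ZMod n) := congrArg Prod.fst h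
    have h2 : (b : ZMod n) = (b' : ZMod n) := congrArg Prod.snd h
    have h3 : a = a' := cast_inj_of_window (n := n) (k := 0) (Nat.zero_le _)
      (by have := hab.1; dsimp only at this; omega) (Nat.zero_le _)
      (by have := hab'.1; dsimp only at this; omega) h1
    have h4 : b = b' := cast_inj_of_window (n := n) (k := 0) (Nat.zero_le _)
      (by have := hab.2; dsimp only at this; omega) (Nat.zero_le _)
      (by have := hab'.2; dsimp only at this; omega) h2
    rw [h3, h4]
  rw [hS]
  rcases Nat.eq_zero_or_pos K with hK | hK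
  · subst hK
    apply Pool.Agent.TransFree.transport (G := ZMod n) (ZMod.card n) (fun r c => r + c)
    · intro r a b h; exact add_left_cancel h
    · intro c a b h; exact add_right_cancel h
    · intro p hp
      exfalso
      have h1 : p ∈ ((range 0) ×ˢ (range 0)).image
        (fun p : ℕ × ℕ => ((p.1 : ZMod n), (p.2 : ZMod n))) := hp
      simp at h1
  · apply Pool.Agent.TransFree.transport (G := ZMod n) (ZMod.card n) (sq hn4)
    · exact sq_row hK hn4
    · exact sq_col hK hn4
    · intro p hp σ hσ hL hp2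
      have h1 : p ∈ ((range K) ×ˢ (range K)).image
        (fun p : ℕ × ℕ => ((p.1 : ZMod n), (p.2 : ZMod n))) := hp
      rw [Finset.mem_image] at h1
      obtain ⟨⟨a, b⟩, hab, rfl⟩ := h1
      rw [Finset.mem_product, Finset.mem_range, Finset.mem_range] at hab
      have ha : a < K := hab.1
      have hb : b < K := hab.2
      have hav : ((a : ZMod n)).val = a := by
        rw [ZMod.val_natCast, Nat.mod_eq_of_lt (by omega)]
      have hbv : ((b : ZMod n)).val = b := by
        rw [ZMod.val_natCast, Nat.mod_eq_of_lt (by omega)]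
      apply free hK hKe hn4 ho hlt σ hσ hL (a : ZMod n) (by rw [hav]; exact ha)
      have hp3 : σ (a : ZMod n) = (b : ZMod n) := hp2
      rw [hp3, hbv]
      exact hb

end Pool.Agent.Helper63.LatinLinear
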